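import Pool.Agent.helper59.FI4.SpecI

/-!
# Row fi4:LBS (MP_baa4d7_al): sum over the blocks of `N`
-/

set_option autoImplicit false

namespace Pool.Agent.FI4I

open Pool.Agent.helper58.DC Pool.Agent.DI Pool.Agent.GR Pool.Agent.OB Pool.Agent.DR Pool.Agent.FI Pool.Agent.FI3 Pool.Agent.FI4

theorem LBS (hFSI : FSI_stmt) (hB2 : B2_stmt) : LBS_stmt := by
  classical
  intro p M hS G _ _ χ N H hHN hyp
  have hH0 : ∀ ζ ∈ IrrOn H, ∀ x, x ∉ N → ζ x = 0 := fun ζ hζ x hx => ((hB2 G H).2 ζ hζ).2.2.2.1 x fun h => hx (hHN h)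
  have hN0 : ∀ φ ∈ IrrOn N, ∀ x, x ∉ N → φ x = 0 := fun φ hφ => ((hB2 G N).2 φ hφ).2.2.2.1
  have hfN : (Blk M χ N).Finite := (hB2 G N).1.subset fun _ h => h.1
  have hfH : (Blk M χ H).Finite := (hB2 G H).1.subset fun _ h => h.1
  have hfB : ∀ φ, (Bl M N φ).Finite := fun φ => (hB2 G N).1.subset fun _ h => h.1
  have hI : ∀ η ψ : G → ℂ, (∀ x, x ∉ N → η x = 0) → (∀ x, x ∉ N → ψ x = 0) → SB M N η ψ → (Induces M η χ ↔ Induces M ψ χ) :=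
    fun η ψ h1 h2 h3 => (hFSI p M hS G N N η ψ).2 h1 h2 h3 χ
  have hL : ∀ φ ∈ Blk M χ N, LB p M N φ H = ∑ ζ ∈ hfH.toFinset, if SB M N ζ φ then EE p H ζ ζ else 0 := by
    intro φ hφ
    unfold LB
    have e : {ζ : G → ℂ | ζ ∈ IrrOn H ∧ SB M N ζ φ} = ((hfH.toFinset.filter fun ζ => SB M N ζ φ : Finset (G → ℂ)) : Set (G → ℂ)) := by
      ext ζ
      simp only [Set.mem_setOf_eq, Finset.coe_filter, Set.Finite.mem_toFinset]
      constructor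
      · rintro ⟨h1, h2⟩
        exact ⟨⟨h1, (hI ζ φ (hH0 ζ h1) (hN0 φ hφ.1) h2).2 hφ.2⟩, h2⟩
      · rintro ⟨h1, h2⟩
        exact ⟨h1.1, h2⟩
    rw [e, finsum_mem_coe_finset, Finset.sum_filter]
  have hLL : LL p M χ H = ∑ ζ ∈ hfH.toFinset, EE p H ζ ζ := by
    unfold LL
    rw [finsum_mem_eq_finite_toFinset_sum _ hfH]
  rw [finsum_mem_eq_finite_toFinset_sum _ hfN, hLL]
  have h1 : ∑ φ ∈ hfN.toFinset, LB p M N φ H / ((Bl M N φ).ncard : ℂ) =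
      ∑ φ ∈ hfN.toFinset, ∑ ζ ∈ hfH.toFinset, if SB M N ζ φ then EE p H ζ ζ / ((Bl M N φ).ncard : ℂ) else 0 := by
    refine Finset.sum_congr rfl fun φ hφ => ?_
    rw [hL φ ((Set.Finite.mem_toFinset _).1 hφ), Finset.sum_div]
    refine Finset.sum_congr rfl fun ζ _ => ?_
    split_ifs
    · rfl
    · simp
  rw [h1, Finset.sum_comm]
  refine Finset.sum_congr rfl fun ζ hζ => ?_
  have hζ' : ζ ∈ Blk M χ H := (Set.Finite.mem_toFinset _).1 hζ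
  obtain ⟨φ₀, hφ₀, hs⟩ := hyp ζ hζ'
  have hi₀ : Induces M φ₀ χ := (hI ζ φ₀ (hH0 ζ hζ'.1) (hN0 φ₀ hφ₀) hs).1 hζ'.2
  rw [← Finset.sum_filter]
  have e1 : hfN.toFinset.filter (fun φ => SB M N ζ φ) = (hfB φ₀).toFinset := by
    ext φ
    simp only [Finset.mem_filter, Set.Finite.mem_toFinset]
    constructor
    · rintro ⟨h2, h3⟩
      exact ⟨h2.1, h3.symm.trans hs⟩
    · rintro ⟨h2, h3⟩
      exact ⟨⟨h2, (hI φ φ₀ (hN0 φ h2) (hN0 φ₀ hφ₀) h3).2 hi₀⟩, hs.trans h3.symm⟩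
  rw [e1]
  have e2 : ∀ φ ∈ (hfB φ₀).toFinset, EE p H ζ ζ / ((Bl M N φ).ncard : ℂ) = EE p H ζ ζ / ((Bl M N φ₀).ncard : ℂ) := by
    intro φ hφ
    have h2 : φ ∈ Bl M N φ₀ := (Set.Finite.mem_toFinset _).1 hφ
    have h3 : Bl M N φ = Bl M N φ₀ := by
      ext ψ
      constructor
      · rintro ⟨h4, h5⟩
        exact ⟨h4, h5.trans h2.2⟩
      · rintro ⟨h4, h5⟩
        exact ⟨h4, h5.trans h2.2.symm⟩
    rw [h3]
  rw [Finset.sum_congr rfl e2, Finset.sum_const, nsmul_eq_mul, ← Set.ncard_eq_toFinset_card _ (hfB φ₀)]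
  have h2 : ((Bl M N φ₀).ncard : ℂ) ≠ 0 := by
    rw [Nat.cast_ne_zero]
    exact (Set.ncard_pos (hfB φ₀)).2 ⟨φ₀, hφ₀, SB.refl N φ₀⟩ |>.ne'
  field_simp

end Pool.Agent.FI4I
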